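import Pool.Agent.Lib.MP_6b7756_an.Mg.G004
import Pool.Agent.Lib.MP_6b7756_an.Mg.G003
import Pool.Agent.Lib.MP_6b7756_an.Mg.G002
import Pool.Agent.Lib.MP_6b7756_an.Mg.G001

/-!
# MP_6b7756_an, full disproof: all parts together
-/

set_option autoImplicit false

namespace Pool.Agent.Lib.MP_6b7756_an.GM

theorem all_ncBig : Stmt_NcBig :=
  ncBig chart freeTree
    (windmill tree_facts (millForm tree_facts) (millBig tree_facts (nf tree_facts))
      (millThin tree_facts (nf tree_facts) (millForm tree_facts)))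
    (rotInj tree_facts (windmill tree_facts (millForm tree_facts)
      (millBig tree_facts (nf tree_facts))
      (millThin tree_facts (nf tree_facts) (millForm tree_facts))))

theorem all_emb : Stmt_Emb := emb chart all_ncBig

theorem all_A : Stmt_A :=
  sparseQ freeTree all_ncBig crit (ext chart all_emb bfs growth (extOK chart))

theorem all_extQ : Stmt_ExtQ := extQ chart all_ncBig all_emb extTop

theorem all_WtW : Stmt_WtW := wtW walsh

theorem all_H1 : Stmt_H1 := hone (core (cheeger layer) walsh all_WtW fib) wrq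

theorem all_H2 : Stmt_H2 := htwo all_WtW fib wrq

theorem all_family : Stmt_Family :=
  family (next (graph rg (rx rx1) rt) (label cnt1 (cnt2 pathCount) (cnt3 pathCount pair)) comp
    girthX (own wordPath) wdCount) num

/-- The frozen negation. -/
theorem all_final : ¬ (∀ (G : Type) [Group G] [TopologicalSpace G] [IsTopologicalGroup G]
      [LocallyCompactSpace G] [T2Space G] [MeasurableSpace G] [BorelSpace G], EbBody G) :=
  final all_family all_ncBig all_A all_extQ (an wrtop limitA limitB all_H1 all_H2)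

/-- The counterexample with its open compact central subgroup. -/
theorem all_group :
    ∃ (G : Type) (_ : Group G) (_ : TopologicalSpace G) (_ : IsTopologicalGroup G)
      (_ : LocallyCompactSpace G) (_ : T2Space G) (_ : MeasurableSpace G) (_ : BorelSpace G)
      (K : Subgroup G), IsOpen (K : Set G) ∧ IsCompact (K : Set G) ∧ K ≤ Subgroup.center G ∧
      ∃ φ : G → ℂ, Continuous φ ∧
        φ ∈ closure {ψ : G → ℂ | ∃ ξ : G → ℂ,
          MeasureTheory.MemLp ξ 2 (MeasureTheory.Measure.haar : MeasureTheory.Measure G) ∧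
          ∀ x : G, ψ x = ∫ y, ξ y * (starRingEnd ℂ) (ξ (x⁻¹ * y))
            ∂(MeasureTheory.Measure.haar : MeasureTheory.Measure G)} ∧
        ∃ C : Set G, IsCompact C ∧ ∃ ε : ℝ, 0 < ε ∧ ¬ ∃ ξ : G → ℂ,
          MeasureTheory.MemLp ξ 2 (MeasureTheory.Measure.haar : MeasureTheory.Measure G) ∧
          ∀ x ∈ C, ‖φ x - ∫ y, ξ y * (starRingEnd ℂ) (ξ (x⁻¹ * y))
            ∂(MeasureTheory.Measure.haar : MeasureTheory.Measure G)‖ < ε := by
  obtain ⟨S, hS1, hS2, X, g, hX⟩ := all_family
  obtain ⟨E, iE, tE, π, gE, hE1⟩ := all_extQ S X g hX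
  exact an2 wrtop limitA limitB all_H1 all_H2 (QQ X) S E (fun s => cl X (FreeGroup.of s)) π gE
    (fn_gen_ne X g hX all_ncBig) (all_A S X g hX) hE1

end Pool.Agent.Lib.MP_6b7756_an.GM
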